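import Pool.Agent.H484.HH.Stm

set_option autoImplicit false

open Finset

namespace Pool.Agent.H484.HH

/-- lower bound for a convolution of two arcs -/
theorem t_CL : S_CL := by
  intro N _ z m hm x hx
  unfold conv
  have key : ∀ i ∈ range m, (1:ℝ) ≤ ∑ i' ∈ range (2 * m),
      if z - ((m : ZMod N) - 1) + (i : ZMod N) + (i' : ZMod N) = x then (1:ℝ) else 0 := by
    intro i hi
    rw [mem_range] at hi
    have h1 : (x - z).val + (m - 1 - i) ∈ range (2 * m) := by
      rw [mem_range]
      omega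
    have h2 := single_le_sum (f := fun i' : ℕ =>
      if z - ((m : ZMod N) - 1) + (i : ZMod N) + (i' : ZMod N) = x then (1:ℝ) else 0)
      (fun i' _ => by
        show (0:ℝ) ≤ if z - ((m : ZMod N) - 1) + (i : ZMod N) + (i' : ZMod N) = x then (1:ℝ) else 0
        split_ifs <;> norm_num) h1
    refine le_trans (le_of_eq ?_) h2
    have h3 : (((m - 1 - i : ℕ) : ZMod N)) = (m : ZMod N) - 1 - (i : ZMod N) := by
      rw [Nat.cast_sub (by omega), Nat.cast_sub hm, Nat.cast_one]
    have h4 : z - ((m : ZMod N) - 1) + (i : ZMod N) + (((x - z).val + (m - 1 - i) : ℕ) : ZMod N) = x := by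
      rw [Nat.cast_add, ZMod.natCast_zmod_val, h3]
      ring
    exact (if_pos h4).symm
  calc (m:ℝ) = ∑ _i ∈ range m, (1:ℝ) := by simp
    _ ≤ _ := sum_le_sum key

end Pool.Agent.H484.HH
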